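import Mathlib
import Pool.Agent.TH340.LI.Key

/-!
# Lipschitz interpolation of `L^γ[0,1]` between `L^β[0,1]` and `L^α[0,1]`

For all exponents `1 ≤ β < γ < α < ∞` the space `L^γ[0,1]` is a Lipschitz interpolation space
between `L^β[0,1]` and `L^α[0,1]`, with constant `2 (γ/(γ-β) + γ/(α-γ))^(1/γ)`.

For `y` in `L^α` and `x` in `L^γ` the difference `U x - U y` is split at `U (y + d_s)`, where `d_s`
is the truncation of `d = x - y` at height `s`; the truncation argument of Marcinkiewicz gives the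
estimate. The general case follows by density of `L^α` in `L^γ` and Fatou's lemma.
-/

set_option autoImplicit false

open MeasureTheory Set Filter
open scoped ENNReal NNReal Topology

namespace Pool.Agent.Results.MP_6e3e44_an.LipschitzInterpolation

/-- Lebesgue measure on `[0,1]`. -/
noncomputable def mu : Measure ℝ := volume.restrict (Icc (0:ℝ) 1)

/-- The norm of `L^p[0,1]` of a complex-valued function (used for functions in `L^p`). -/
noncomputable def nrm (p : ℝ≥0∞) (f : ℝ → ℂ) : ℝ := (eLpNorm f p mu).toReal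

/-- `L^γ[0,1]` is a Lipschitz interpolation space with constant `C` between `L^β[0,1]` and
`L^α[0,1]`: every map `U` of `L^β` into itself which maps `L^α` into `L^α` and is Lipschitz for
both norms, with constants `M₀` and `M₁`, maps `L^γ` into `L^γ` and is Lipschitz for the norm of
`L^γ` with constant `C * max M₀ M₁`. -/
def IsLipschitzInterpolation (β γ α : ℝ≥0∞) (C : ℝ) : Prop :=
  ∀ (U : Lp ℂ β mu → Lp ℂ β mu) (M₀ M₁ : ℝ),
    (∀ x : Lp ℂ β mu, MemLp x α mu → MemLp (U x) α mu) →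
    (∀ x y : Lp ℂ β mu, nrm β (U x - U y : Lp ℂ β mu) ≤ M₀ * nrm β (x - y : Lp ℂ β mu)) →
    (∀ x y : Lp ℂ β mu, MemLp x α mu → MemLp y α mu →
      nrm α (U x - U y : Lp ℂ β mu) ≤ M₁ * nrm α (x - y : Lp ℂ β mu)) →
    (∀ x : Lp ℂ β mu, MemLp x γ mu → MemLp (U x) γ mu) ∧
    ∀ x y : Lp ℂ β mu, MemLp x γ mu → MemLp y γ mu →
      nrm γ (U x - U y : Lp ℂ β mu) ≤ C * max M₀ M₁ * nrm γ (x - y : Lp ℂ β mu)

instance : IsProbabilityMeasure mu := by
  refine ⟨?_⟩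
  rw [mu, Measure.restrict_apply_univ, Real.volume_Icc]
  simp

lemma lint_eq {p : ℝ≥0∞} (h0 : p ≠ 0) (h1 : p ≠ ∞) (f : ℝ → ℂ) (ν : Measure ℝ) :
    ∫⁻ x, ‖f x‖ₑ ^ p.toReal ∂ν = eLpNorm f p ν ^ p.toReal := by
  have hp : p.toReal ≠ 0 := (ENNReal.toReal_pos h0 h1).ne'
  rw [eLpNorm_eq_lintegral_rpow_enorm_toReal h0 h1, ← ENNReal.rpow_mul, one_div,
    inv_mul_cancel₀ hp, ENNReal.rpow_one]

lemma enn_of_nrm {p : ℝ≥0∞} {f g : ℝ → ℂ} {M₀ M : ℝ} (hM : 0 ≤ M) (hMM : M₀ ≤ M)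
    (hf : eLpNorm f p mu ≠ ∞) (hg : eLpNorm g p mu ≠ ∞) (h : nrm p f ≤ M₀ * nrm p g) :
    eLpNorm f p mu ≤ ENNReal.ofReal M * eLpNorm g p mu := by
  unfold nrm at h
  rw [← ENNReal.ofReal_toReal hf, ← ENNReal.ofReal_toReal hg, ← ENNReal.ofReal_mul hM]
  apply ENNReal.ofReal_le_ofReal
  refine h.trans ?_
  gcongr

/-- The basic estimate: `y` in `L^α`. -/
lemma basic {β γ α : ℝ≥0∞} (hβ : 1 ≤ β) (h1 : β < γ) (h2 : γ < α) (h3 : α < ∞)
    (U : Lp ℂ β mu → Lp ℂ β mu) {M : ℝ} (hM : 0 < M)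
    (hU0 : ∀ x y : Lp ℂ β mu,
      eLpNorm (U x - U y : Lp ℂ β mu) β mu ≤ ENNReal.ofReal M * eLpNorm (x - y : Lp ℂ β mu) β mu)
    (hU1 : ∀ x y : Lp ℂ β mu, MemLp x α mu → MemLp y α mu →
      eLpNorm (U x - U y : Lp ℂ β mu) α mu ≤ ENNReal.ofReal M * eLpNorm (x - y : Lp ℂ β mu) α mu)
    (x y : Lp ℂ β mu) (hy : MemLp y α mu) :
    eLpNorm (U x - U y : Lp ℂ β mu) γ mu ≤ ENNReal.ofReal
      (2 * (γ.toReal * (1 / (γ.toReal - β.toReal) + 1 / (α.toReal - γ.toReal))) ^ (1 / γ.toReal)) *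
      ENNReal.ofReal M * eLpNorm (x - y : Lp ℂ β mu) γ mu := by
  have hβ0 : β ≠ 0 := (lt_of_lt_of_le one_pos hβ).ne'
  have hβt : β ≠ ∞ := (h1.trans (h2.trans h3)).ne
  have hγ0 : γ ≠ 0 := ((lt_of_lt_of_le one_pos hβ).trans h1).ne'
  have hγt : γ ≠ ∞ := (h2.trans h3).ne
  have hα0 : α ≠ 0 := (((lt_of_lt_of_le one_pos hβ).trans h1).trans h2).ne'
  have hαt : α ≠ ∞ := h3.ne
  have hb : 0 < β.toReal := ENNReal.toReal_pos hβ0 hβt
  have hg : 0 < γ.toReal := ENNReal.toReal_pos hγ0 hγt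
  have ha : 0 < α.toReal := ENNReal.toReal_pos hα0 hαt
  have hbg : β.toReal < γ.toReal := (ENNReal.toReal_lt_toReal hβt hγt).2 h1
  have hga : γ.toReal < α.toReal := (ENNReal.toReal_lt_toReal hγt hαt).2 h2
  set d : ℝ → ℂ := ((x - y : Lp ℂ β mu) : ℝ → ℂ) with hd
  have hdm : Measurable d := (Lp.stronglyMeasurable _).measurable
  have hkey := Pool.Agent.TH340.LI.key (μ := mu) hb hbg hga hM
    (W := ((U x - U y : Lp ℂ β mu) : ℝ → ℂ)) (d := d) (Lp.aestronglyMeasurable _) hdm (by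
      intro s hs
      have hset1 : MeasurableSet {x | s < ‖d x‖} := measurableSet_lt measurable_const hdm.norm
      have hset2 : MeasurableSet {x | ‖d x‖ ≤ s} := measurableSet_le hdm.norm measurable_const
      set ds : ℝ → ℂ := {x | ‖d x‖ ≤ s}.indicator d with hds
      have hdsm : Measurable ds := hdm.indicator hset2
      have hdsb : ∀ p : ℝ≥0∞, MemLp ds p mu := fun p =>
        MemLp.of_bound hdsm.aestronglyMeasurable s (Eventually.of_forall fun z => by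
          simp only [hds, indicator, mem_ofPred_eq]
          split_ifs with h
          · exact h
          · simpa using hs.le)
      set e : Lp ℂ β mu := (hdsb β).toLp ds with he
      have hee : (e : ℝ → ℂ) =ᵐ[mu] ds := MemLp.coeFn_toLp _
      set z : Lp ℂ β mu := y + e with hz
      have hzα : MemLp z α mu := by
        have h5 : (z : ℝ → ℂ) =ᵐ[mu] (y : ℝ → ℂ) + ds := by
          filter_upwards [Lp.coeFn_add y e, hee] with t ht1 ht2
          rw [hz, ht1, Pi.add_apply, Pi.add_apply, ht2]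
        exact (memLp_congr_ae h5).2 (hy.add (hdsb α))
      have hxz : ((x - z : Lp ℂ β mu) : ℝ → ℂ) =ᵐ[mu] {x | s < ‖d x‖}.indicator d := by
        have h6 : x - z = (x - y) - e := by rw [hz]; abel
        rw [h6]
        filter_upwards [Lp.coeFn_sub (x - y) e, hee] with t ht1 ht2
        rw [ht1, Pi.sub_apply, ht2]
        show d t - ds t = _
        simp only [hds, indicator, mem_ofPred_eq]
        by_cases h : ‖d t‖ ≤ s
        · rw [if_pos h, if_neg (not_lt.2 h), sub_self]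
        · rw [if_neg h, if_pos (not_le.1 h), sub_zero]
      have hzy : ((z - y : Lp ℂ β mu) : ℝ → ℂ) =ᵐ[mu] ds := by
        have h6 : z - y = e := by rw [hz]; abel
        rw [h6]
        exact hee
      refine ⟨((U x - U z : Lp ℂ β mu) : ℝ → ℂ), ((U z - U y : Lp ℂ β mu) : ℝ → ℂ),
        Lp.aestronglyMeasurable _, Lp.aestronglyMeasurable _, ?_, ?_, ?_⟩
      · have h7 : U x - U y = (U x - U z) + (U z - U y) := by abel
        rw [h7]
        filter_upwards [Lp.coeFn_add (U x - U z) (U z - U y)] with t ht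
        rw [ht, Pi.add_apply]
        exact norm_add_le _ _
      · rw [lint_eq hβ0 hβt, lint_eq hβ0 hβt, ← eLpNorm_indicator_eq_eLpNorm_restrict hset1,
          ← eLpNorm_congr_ae hxz, ← ENNReal.mul_rpow_of_nonneg _ _ hb.le]
        exact ENNReal.rpow_le_rpow (hU0 x z) hb.le
      · rw [lint_eq hα0 hαt, lint_eq hα0 hαt, ← eLpNorm_indicator_eq_eLpNorm_restrict hset2,
          ← hds, ← eLpNorm_congr_ae hzy, ← ENNReal.mul_rpow_of_nonneg _ _ ha.le]
        exact ENNReal.rpow_le_rpow (hU1 z y hzα hy) ha.le)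
  rw [lint_eq hγ0 hγt, lint_eq hγ0 hγt] at hkey
  have hK : 0 ≤ γ.toReal * (1 / (γ.toReal - β.toReal) + 1 / (α.toReal - γ.toReal)) := by
    have : 0 < γ.toReal - β.toReal := by linarith
    have : 0 < α.toReal - γ.toReal := by linarith
    positivity
  set K := γ.toReal * (1 / (γ.toReal - β.toReal) + 1 / (α.toReal - γ.toReal)) with hKdef
  have h8 := ENNReal.rpow_le_rpow hkey (show 0 ≤ 1 / γ.toReal by positivity)
  rw [← ENNReal.rpow_mul, mul_one_div_cancel hg.ne', ENNReal.rpow_one,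
    ENNReal.mul_rpow_of_nonneg _ _ (by positivity), ENNReal.mul_rpow_of_nonneg _ _ (by positivity),
    ← ENNReal.rpow_mul, ← ENNReal.rpow_mul, mul_one_div_cancel hg.ne', ENNReal.rpow_one,
    ENNReal.rpow_one, ENNReal.ofReal_rpow_of_nonneg hK (by positivity)] at h8
  refine h8.trans (le_of_eq ?_)
  rw [← mul_assoc, ← ENNReal.ofReal_mul (by positivity), ← ENNReal.ofReal_mul (by positivity)]
  congr 2
  ring

/-- density of bounded functions -/
lemma approx {β γ α : ℝ≥0∞} (y : Lp ℂ β mu) (hy : MemLp y γ mu) {ε : ℝ} (hε : 0 < ε) :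
    ∃ z : Lp ℂ β mu, MemLp z α mu ∧ eLpNorm (y - z : Lp ℂ β mu) γ mu ≤ ENNReal.ofReal ε := by
  obtain ⟨R, hR⟩ := hy.eLpNorm_indicator_norm_ge_le (Lp.stronglyMeasurable y) hε
  have hm : Measurable (y : ℝ → ℂ) := (Lp.stronglyMeasurable y).measurable
  have hset : MeasurableSet {t | ‖(y : ℝ → ℂ) t‖ < R} := measurableSet_lt hm.norm measurable_const
  set w : ℝ → ℂ := {t | ‖(y : ℝ → ℂ) t‖ < R}.indicator y with hw
  have hwb : ∀ p : ℝ≥0∞, MemLp w p mu := fun p =>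
    MemLp.of_bound (hm.indicator hset).aestronglyMeasurable |R| (Eventually.of_forall fun z => by
      simp only [hw, indicator, mem_ofPred_eq]
      split_ifs with h
      · exact h.le.trans (le_abs_self R)
      · simp)
  refine ⟨(hwb β).toLp w, (memLp_congr_ae (MemLp.coeFn_toLp _)).2 (hwb α), ?_⟩
  refine le_trans (le_of_eq (eLpNorm_congr_ae ?_)) hR
  filter_upwards [Lp.coeFn_sub y ((hwb β).toLp w), (hwb β).coeFn_toLp] with t ht1 ht2
  rw [ht1, Pi.sub_apply, ht2, hw]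
  by_cases h : ‖(y : ℝ → ℂ) t‖ < R
  · have h5 : t ∈ {t | ‖(y : ℝ → ℂ) t‖ < R} := h
    have h6 : t ∉ {x | R ≤ ((‖(y : ℝ → ℂ) x‖₊ : ℝ≥0) : ℝ)} := not_le.2 h
    rw [indicator_of_mem h5, indicator_of_notMem h6, sub_self]
  · have h5 : t ∉ {t | ‖(y : ℝ → ℂ) t‖ < R} := h
    have h6 : t ∈ {x | R ≤ ((‖(y : ℝ → ℂ) x‖₊ : ℝ≥0) : ℝ)} := not_lt.1 h
    rw [indicator_of_notMem h5, indicator_of_mem h6, sub_zero]

/-- The estimate for all `x`, `y`. -/
lemma general {β γ α : ℝ≥0∞} (hβ : 1 ≤ β) (h1 : β < γ) (h2 : γ < α) (h3 : α < ∞)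
    (U : Lp ℂ β mu → Lp ℂ β mu) {M : ℝ} (hM : 0 < M)
    (hU0 : ∀ x y : Lp ℂ β mu,
      eLpNorm (U x - U y : Lp ℂ β mu) β mu ≤ ENNReal.ofReal M * eLpNorm (x - y : Lp ℂ β mu) β mu)
    (hU1 : ∀ x y : Lp ℂ β mu, MemLp x α mu → MemLp y α mu →
      eLpNorm (U x - U y : Lp ℂ β mu) α mu ≤ ENNReal.ofReal M * eLpNorm (x - y : Lp ℂ β mu) α mu)
    (x y : Lp ℂ β mu) (hy : MemLp y γ mu) :
    eLpNorm (U x - U y : Lp ℂ β mu) γ mu ≤ ENNReal.ofReal
      (2 * (γ.toReal * (1 / (γ.toReal - β.toReal) + 1 / (α.toReal - γ.toReal))) ^ (1 / γ.toReal)) *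
      ENNReal.ofReal M * eLpNorm (x - y : Lp ℂ β mu) γ mu := by
  set C := ENNReal.ofReal
      (2 * (γ.toReal * (1 / (γ.toReal - β.toReal) + 1 / (α.toReal - γ.toReal))) ^ (1 / γ.toReal)) *
      ENNReal.ofReal M with hC
  have hCt : C ≠ ∞ := ENNReal.mul_ne_top ENNReal.ofReal_ne_top ENNReal.ofReal_ne_top
  have hγ1 : 1 ≤ γ := hβ.trans h1.le
  have hβ0 : β ≠ 0 := (lt_of_lt_of_le one_pos hβ).ne'
  choose z hzα hz using fun n : ℕ => approx (α := α) y hy
    (show (0:ℝ) < 1 / ((n : ℝ) + 1) by positivity)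
  have hsm : ∀ w : Lp ℂ β mu, AEStronglyMeasurable (w : ℝ → ℂ) mu :=
    fun w => Lp.aestronglyMeasurable w
  have hlim0 : Tendsto (fun n : ℕ => ENNReal.ofReal (1 / ((n : ℝ) + 1))) atTop (𝓝 0) := by
    have := ENNReal.tendsto_ofReal (tendsto_one_div_add_atTop_nhds_zero_nat (𝕜 := ℝ))
    simpa using this
  -- convergence of `U (z n)` to `U y`
  have hconv : Tendsto (fun n => eLpNorm ((U (z n) : ℝ → ℂ) - (U y : ℝ → ℂ)) β mu) atTop (𝓝 0) := by
    have hlim1 : Tendsto (fun n : ℕ => ENNReal.ofReal M * ENNReal.ofReal (1 / ((n : ℝ) + 1)))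
        atTop (𝓝 0) := by
      have := ENNReal.Tendsto.const_mul hlim0 (Or.inr (ENNReal.ofReal_ne_top (r := M)))
      simpa using this
    refine tendsto_of_tendsto_of_tendsto_of_le_of_le tendsto_const_nhds hlim1
      (fun _ => zero_le) fun n => ?_
    have e1 : eLpNorm ((U (z n) : ℝ → ℂ) - (U y : ℝ → ℂ)) β mu =
        eLpNorm (U y - U (z n) : Lp ℂ β mu) β mu := by
      rw [eLpNorm_sub_comm]
      exact (eLpNorm_congr_ae (Lp.coeFn_sub _ _)).symm
    rw [e1]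
    calc eLpNorm (U y - U (z n) : Lp ℂ β mu) β mu
        ≤ ENNReal.ofReal M * eLpNorm (y - z n : Lp ℂ β mu) β mu := hU0 _ _
      _ ≤ ENNReal.ofReal M * eLpNorm (y - z n : Lp ℂ β mu) γ mu := by
          gcongr
          exact eLpNorm_le_eLpNorm_of_exponent_le h1.le (hsm _)
      _ ≤ ENNReal.ofReal M * ENNReal.ofReal (1 / ((n : ℝ) + 1)) := by
          gcongr
          exact hz n
  obtain ⟨ns, hns, hae⟩ := (tendstoInMeasure_of_tendsto_eLpNorm hβ0 (fun n => hsm (U (z n)))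
    (hsm (U y)) hconv).exists_seq_tendsto_ae
  have hfatou := Lp.eLpNorm_lim_le_liminf_eLpNorm (p := γ) (μ := mu)
    (f := fun k => ((U x - U (z (ns k)) : Lp ℂ β mu) : ℝ → ℂ)) (fun k => hsm _)
    ((U x - U y : Lp ℂ β mu) : ℝ → ℂ) (by
      have h5 : ∀ᵐ t ∂mu, ∀ k, ((U x - U (z (ns k)) : Lp ℂ β mu) : ℝ → ℂ) t =
          (U x : ℝ → ℂ) t - (U (z (ns k)) : ℝ → ℂ) t := by
        rw [ae_all_iff]
        intro k
        filter_upwards [Lp.coeFn_sub (U x) (U (z (ns k)))] with t ht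
        rw [ht, Pi.sub_apply]
      filter_upwards [h5, hae, Lp.coeFn_sub (U x) (U y)] with t ht1 ht2 ht3
      rw [ht3, Pi.sub_apply]
      simp only [ht1]
      exact tendsto_const_nhds.sub ht2)
  refine hfatou.trans ?_
  have hub : ∀ k, eLpNorm ((U x - U (z (ns k)) : Lp ℂ β mu) : ℝ → ℂ) γ mu ≤
      C * (eLpNorm (x - y : Lp ℂ β mu) γ mu + ENNReal.ofReal (1 / ((ns k : ℝ) + 1))) := by
    intro k
    refine (basic hβ h1 h2 h3 U hM hU0 hU1 x (z (ns k)) (hzα _)).trans ?_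
    gcongr
    have e2 : x - z (ns k) = (x - y) + (y - z (ns k)) := by abel
    rw [e2, eLpNorm_congr_ae (Lp.coeFn_add (x - y) (y - z (ns k)))]
    refine (eLpNorm_add_le (hsm _) (hsm _) hγ1).trans ?_
    gcongr
    exact hz _
  have hlim2 : Tendsto (fun k => C * (eLpNorm (x - y : Lp ℂ β mu) γ mu +
      ENNReal.ofReal (1 / ((ns k : ℝ) + 1)))) atTop
      (𝓝 (C * (eLpNorm (x - y : Lp ℂ β mu) γ mu + 0))) :=
    ENNReal.Tendsto.const_mul (tendsto_const_nhds.add (hlim0.comp hns.tendsto_atTop))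
      (Or.inr hCt)
  rw [add_zero] at hlim2
  exact (liminf_le_liminf (Eventually.of_forall hub)).trans (le_of_eq hlim2.liminf_eq)

/-- **Answer to Q1 (affirmative).** For all exponents `1 ≤ β < γ < α < ∞` the space `L^γ[0,1]` is a
Lipschitz interpolation space, with some constant `C > 0`, between `L^β[0,1]` and `L^α[0,1]`. -/
theorem result (β γ α : ℝ≥0∞) (hβ : 1 ≤ β) (h1 : β < γ) (h2 : γ < α) (h3 : α < ∞) :
    ∃ C : ℝ, 0 < C ∧ IsLipschitzInterpolation β γ α C := by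
  have hβ0 : β ≠ 0 := (lt_of_lt_of_le one_pos hβ).ne'
  have hβt : β ≠ ∞ := (h1.trans (h2.trans h3)).ne
  have hγ0 : γ ≠ 0 := ((lt_of_lt_of_le one_pos hβ).trans h1).ne'
  have hγt : γ ≠ ∞ := (h2.trans h3).ne
  have hαt : α ≠ ∞ := h3.ne
  have hg : 0 < γ.toReal := ENNReal.toReal_pos hγ0 hγt
  have hbg : 0 < γ.toReal - β.toReal := sub_pos.2 ((ENNReal.toReal_lt_toReal hβt hγt).2 h1)
  have hga : 0 < α.toReal - γ.toReal := sub_pos.2 ((ENNReal.toReal_lt_toReal hγt hαt).2 h2)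
  set C₀ : ℝ := 2 * (γ.toReal * (1 / (γ.toReal - β.toReal) +
    1 / (α.toReal - γ.toReal))) ^ (1 / γ.toReal) with hC₀
  have hC₀pos : 0 < C₀ := by positivity
  refine ⟨C₀, hC₀pos, ?_⟩
  intro U M₀ M₁ hUα hL0 hL1
  have hfin : ∀ w : Lp ℂ β mu, eLpNorm (w : ℝ → ℂ) β mu ≠ ∞ := fun w => Lp.eLpNorm_ne_top w
  -- `M₀` is nonnegative
  have hM0 : 0 ≤ M₀ := by
    by_contra hcon
    push Not at hcon
    set o : Lp ℂ β mu := (memLp_const (1 : ℂ)).toLp (fun _ => (1 : ℂ)) with ho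
    have h5 := hL0 o 0
    rw [sub_zero] at h5
    have h6 : nrm β (o : ℝ → ℂ) = 1 := by
      unfold nrm
      rw [ho, eLpNorm_congr_ae (MemLp.coeFn_toLp _), eLpNorm_const _ hβ0
        (IsProbabilityMeasure.ne_zero mu)]
      simp
    rw [h6] at h5
    have h7 : 0 ≤ nrm β ((U o - U 0 : Lp ℂ β mu) : ℝ → ℂ) := ENNReal.toReal_nonneg
    linarith
  set M := max M₀ M₁ with hM
  have hMnn : 0 ≤ M := hM0.trans (le_max_left _ _)
  have hU0 : ∀ x y : Lp ℂ β mu, eLpNorm (U x - U y : Lp ℂ β mu) β mu ≤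
      ENNReal.ofReal M * eLpNorm (x - y : Lp ℂ β mu) β mu := fun x y =>
    enn_of_nrm hMnn (le_max_left _ _) (hfin _) (hfin _) (hL0 x y)
  have hsub : ∀ (p : ℝ≥0∞) (x y : Lp ℂ β mu), MemLp x p mu → MemLp y p mu →
      MemLp ((x - y : Lp ℂ β mu) : ℝ → ℂ) p mu := fun p x y hx hy =>
    (memLp_congr_ae (Lp.coeFn_sub x y)).2 (hx.sub hy)
  have hU1 : ∀ x y : Lp ℂ β mu, MemLp x α mu → MemLp y α mu →
      eLpNorm (U x - U y : Lp ℂ β mu) α mu ≤
        ENNReal.ofReal M * eLpNorm (x - y : Lp ℂ β mu) α mu := fun x y hx hy =>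
    enn_of_nrm hMnn (le_max_right _ _) (hsub α _ _ (hUα x hx) (hUα y hy)).2.ne
      (hsub α _ _ hx hy).2.ne (hL1 x y hx hy)
  -- the estimate in `L^γ`, also for `M = 0`
  have hest : ∀ x y : Lp ℂ β mu, MemLp y γ mu →
      eLpNorm (U x - U y : Lp ℂ β mu) γ mu ≤ ENNReal.ofReal C₀ * ENNReal.ofReal M *
        eLpNorm (x - y : Lp ℂ β mu) γ mu := by
    intro x y hy
    rcases hMnn.eq_or_lt with h0 | h0
    · have h5 := hU0 x y
      rw [← h0, ENNReal.ofReal_zero, zero_mul] at h5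
      have h6 : ((U x - U y : Lp ℂ β mu) : ℝ → ℂ) =ᵐ[mu] 0 :=
        (eLpNorm_eq_zero_iff (Lp.aestronglyMeasurable _) hβ0).1 (le_antisymm h5 zero_le)
      rw [eLpNorm_congr_ae h6, eLpNorm_zero]
      exact zero_le
    · exact general hβ h1 h2 h3 U h0 hU0 hU1 x y hy
  have hmemU : ∀ x : Lp ℂ β mu, MemLp x γ mu → MemLp (U x) γ mu := by
    intro x hx
    have h0α : MemLp ((0 : Lp ℂ β mu) : ℝ → ℂ) α mu :=
      (memLp_congr_ae (Lp.coeFn_zero _ _ _)).2 MemLp.zero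
    have h0γ : MemLp ((0 : Lp ℂ β mu) : ℝ → ℂ) γ mu := h0α.mono_exponent h2.le
    have h5 := hest x 0 h0γ
    have h6 : MemLp ((U x - U 0 : Lp ℂ β mu) : ℝ → ℂ) γ mu := by
      refine ⟨Lp.aestronglyMeasurable _, lt_of_le_of_lt h5 ?_⟩
      refine ENNReal.mul_lt_top (ENNReal.mul_lt_top ENNReal.ofReal_lt_top ENNReal.ofReal_lt_top) ?_
      exact (hsub γ _ _ hx h0γ).2
    have h7 : MemLp (U 0) γ mu := (hUα 0 h0α).mono_exponent h2.le
    have h8 : (U x : ℝ → ℂ) =ᵐ[mu] ((U x - U 0 : Lp ℂ β mu) : ℝ → ℂ) + (U 0 : ℝ → ℂ) := by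
      filter_upwards [Lp.coeFn_sub (U x) (U 0)] with t ht
      rw [Pi.add_apply, ht, Pi.sub_apply, sub_add_cancel]
    exact (memLp_congr_ae h8).2 (h6.add h7)
  refine ⟨hmemU, fun x y hx hy => ?_⟩
  have h5 := hest x y hy
  have h6 := (hsub γ _ _ hx hy).2.ne
  have h7 := ENNReal.toReal_mono (ENNReal.mul_ne_top
    (ENNReal.mul_ne_top ENNReal.ofReal_ne_top ENNReal.ofReal_ne_top) h6) h5
  rw [ENNReal.toReal_mul, ENNReal.toReal_mul, ENNReal.toReal_ofReal hC₀pos.le,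
    ENNReal.toReal_ofReal hMnn] at h7
  exact h7

end Pool.Agent.Results.MP_6e3e44_an.LipschitzInterpolation
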